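import Pool.Agent.U431.UF.CNT3

set_option autoImplicit false

/-!
# Project UF, package CNT: counting the units
-/

namespace Pool.Agent.U431.UF

open Pool.Agent.U14.UF R4

theorem pos_sq {x : R4} (hx : x ≠ 0) : Pos (x * x) := by
  intro l t hl ht
  rw [ev_mul hl ht]
  exact mul_self_pos.2 (ev_ne hx hl ht)

theorem pair {μ ν : R4} (hμ : Pos μ) (hν : ν ≠ 0) : 0 < (μ * (ν * ν)).a :=
  a_pos (pos_mul hμ (pos_sq hν))

/-- the totally positive elements with first coordinate one -/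
theorem pos_list {μ : R4} (h : Pos μ) (h1 : μ.a = 1) :
    μ = ⟨1, 0, 0, 0⟩ ∨ μ = ⟨1, 1, 0, 0⟩ ∨ μ = ⟨1, 0, 2, 0⟩ ∨ μ = ⟨1, 1, 2, 2⟩ ∨ μ = ⟨1, 0, 1, 0⟩ ∨
      μ = ⟨1, 1, 1, 1⟩ := by
  have q2 := Real.sq_sqrt (show (0 : ℝ) ≤ 2 by norm_num)
  have q5 := Real.sq_sqrt (show (0 : ℝ) ≤ 5 by norm_num)
  have p2 := Real.sqrt_nonneg 2
  have p5 := Real.sqrt_nonneg 5
  have a2 : (1.414 : ℝ) ≤ √2 := by
    rw [show (1.414 : ℝ) = √(1.414 ^ 2) from (Real.sqrt_sq (by norm_num)).symm]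
    exact Real.sqrt_le_sqrt (by norm_num)
  have b5 : (2.236 : ℝ) ≤ √5 := by
    rw [show (2.236 : ℝ) = √(2.236 ^ 2) from (Real.sqrt_sq (by norm_num)).symm]
    exact Real.sqrt_le_sqrt (by norm_num)
  -- the inequalities
  have k1 := pair h (ν := ⟨0, 1, 0, 0⟩) (by decide)
  have k2 := pair h (ν := ⟨1, -1, 0, 0⟩) (by decide)
  have k3 := pair h (ν := ⟨0, 0, 1, 0⟩) (by decide)
  have k4 := pair h (ν := ⟨2, 0, -1, 0⟩) (by decide)
  have k5 := pair h (ν := ⟨0, 0, 0, 1⟩) (by decide)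
  have k6 := pair h (ν := ⟨0, 2, 0, -1⟩) (by decide)
  have k7 := pair h (ν := ⟨0, 0, 1, -1⟩) (by decide)
  have k8 := pair h (ν := ⟨2, -2, -1, 1⟩) (by decide)
  simp only [mul_a, mul_b, mul_c, mul_d, h1] at k1 k2 k3 k4 k5 k6 k7 k8
  obtain ⟨a, b, c, d⟩ := μ
  simp only at h1 k1 k2 k3 k4 k5 k6 k7 k8
  subst h1
  have hb0 : 0 ≤ b := by omega
  have hb1 : b ≤ 1 := by omega
  have hc0 : 0 ≤ c := by omega
  have hc1 : c ≤ 2 := by omega
  have hd0 : -2 ≤ d := by omega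
  have hd1 : d ≤ 4 := by omega
  interval_cases b <;> interval_cases c <;> interval_cases d <;> first
    | omega
    | decide
    | skip
  · exfalso
    have := h (1 + √2) ((1 + √5) / 2) hl1 ht1
    simp only [ev] at this
    push_cast at this
    nlinarith
  · exfalso
    have := h (1 - √2) ((1 + √5) / 2) hl2 ht1
    simp only [ev] at this
    push_cast at this
    nlinarith
  · exfalso
    have := h (1 - √2) ((1 - √5) / 2) hl2 ht2
    simp only [ev] at this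
    push_cast at this
    nlinarith
  · exfalso
    have := h (1 + √2) ((1 - √5) / 2) hl1 ht2
    simp only [ev] at this
    push_cast at this
    nlinarith

variable {A B C α : R4}

theorem card_unit (w w' : R4) (hw : w' * w = 1) (μ : R4) :
    Nat.card {p : Qt A B C α // Qt.nrd p = w ^ 2 * μ} = Nat.card {p : Qt A B C α // Qt.nrd p = μ} := by
  have hc : (Qt.cst w' : Qt A B C α) * Qt.cst w = 1 := by
    rw [Qt.cst_mul]
    ext1
    · exact hw
    · simp [Qt.cst]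
    · simp [Qt.cst]
    · simp [Qt.cst]
  have hc' : (Qt.cst w : Qt A B C α) * Qt.cst w' = 1 := by rw [← Qt.cst_comm, hc]
  refine Nat.card_congr
    { toFun := fun p => ⟨Qt.cst w' * p.1, ?_⟩
      invFun := fun p => ⟨Qt.cst w * p.1, ?_⟩
      left_inv := ?_
      right_inv := ?_ }
  · rw [Qt.nrd_mul, Qt.nrd_cst, p.2, ← mul_assoc, ← mul_pow, hw, one_pow, one_mul]
  · rw [Qt.nrd_mul, Qt.nrd_cst, p.2]
  · intro p
    apply Subtype.ext
    change Qt.cst w * (Qt.cst w' * p.1) = p.1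
    rw [← mul_assoc, hc', one_mul]
  · intro p
    apply Subtype.ext
    change Qt.cst w' * (Qt.cst w * p.1) = p.1
    rw [← mul_assoc, hc, one_mul]

/-- the six values -/
def mv : Fin 6 → R4 := ![⟨1, 0, 0, 0⟩, ⟨1, 1, 0, 0⟩, ⟨1, 0, 2, 0⟩, ⟨1, 1, 2, 2⟩, ⟨1, 0, 1, 0⟩, ⟨1, 1, 1, 1⟩]

theorem t_CNT : S_CNT := by
  intro A B C α _ hC hα h hvA hvB h480
  obtain ⟨n, hn, hX⟩ := card_vpi A B C α h hvA hvB
  have hfin : Finite {p : Qt A B C α // (Qt.nrd p).a = 1} :=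
    Nat.finite_of_card_ne_zero (by rw [h480]; norm_num)
  have ha : ∀ i, (mv i).a = 1 := by decide
  have hinj : Function.Injective mv := by decide
  let f : (Σ i : Fin 6, {p : Qt A B C α // Qt.nrd p = mv i}) → {p : Qt A B C α // (Qt.nrd p).a = 1} :=
    fun s => ⟨s.2.1, by rw [s.2.2, ha]⟩
  have hfi : Function.Injective f := by
    rintro ⟨i, p, hp⟩ ⟨j, q, hq⟩ he
    have e : p = q := congrArg Subtype.val he
    subst e
    have : i = j := hinj (by rw [← hp, ← hq])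
    subst this
    rfl
  have hfs : Function.Surjective f := by
    rintro ⟨p, hp⟩
    have hp0 : p ≠ 0 := by
      rintro rfl
      rw [nrd_zero] at hp
      exact absurd hp (by decide)
    rcases pos_list (nrd_pos hC hα h hp0) hp with e | e | e | e | e | e
    · exact ⟨⟨0, p, e⟩, rfl⟩
    · exact ⟨⟨1, p, e⟩, rfl⟩
    · exact ⟨⟨2, p, e⟩, rfl⟩
    · exact ⟨⟨3, p, e⟩, rfl⟩
    · exact ⟨⟨4, p, e⟩, rfl⟩
    · exact ⟨⟨5, p, e⟩, rfl⟩
  have hfin' : ∀ i, Finite {p : Qt A B C α // Qt.nrd p = mv i} := fun i =>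
    Finite.of_injective (fun p => f ⟨i, p⟩) (fun p q hpq => by
      have := hfi hpq
      exact eq_of_heq (Sigma.mk.inj this).2)
  have hsum := Nat.card_congr (Equiv.ofBijective f ⟨hfi, hfs⟩)
  rw [Nat.card_sigma, h480, Fin.sum_univ_six] at hsum
  have e1 : mv 1 = tau ^ 2 * 1 := by decide
  have e2 : mv 2 = lam ^ 2 * 1 := by decide
  have e3 : mv 3 = (tau * lam) ^ 2 * 1 := by decide
  have e4 : mv 4 = vpi := by decide
  have e5 : mv 5 = tau ^ 2 * vpi := by decide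
  have e0 : mv 0 = 1 := by decide
  rw [e0, e1, e2, e3, e4, e5, card_unit tau ⟨-1, 1, 0, 0⟩ (by decide),
    card_unit tau ⟨-1, 1, 0, 0⟩ (by decide), card_unit lam ⟨-2, 0, 1, 0⟩ (by decide),
    card_unit (tau * lam) (⟨-1, 1, 0, 0⟩ * ⟨-2, 0, 1, 0⟩) (by decide), hX] at hsum
  generalize Nat.card {p : Qt A B C α // Qt.nrd p = 1} = u at hsum ⊢
  simp only [Set.mem_insert_iff, Set.mem_singleton_iff]
  interval_cases n <;> omega

end Pool.Agent.U431.UF
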