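import Pool.Agent.U14.UF.Bas

set_option autoImplicit false

/-!
# Project UF, package CNT, part 3: the elements of norm `ϖ` modulo the units
-/

namespace Pool.Agent.U431.UF

open Pool.Agent.U14.UF R4

/-- the field with four elements `u + v τ` -/
@[ext] structure F4 where
  u : ZMod 2
  v : ZMod 2
deriving DecidableEq, Fintype

namespace F4

instance : Zero F4 := ⟨⟨0, 0⟩⟩
instance : One F4 := ⟨⟨1, 0⟩⟩
instance : Add F4 := ⟨fun x y => ⟨x.u + y.u, x.v + y.v⟩⟩
instance : Neg F4 := ⟨fun x => x⟩
instance : Mul F4 := ⟨fun x y => ⟨x.u * y.u + x.v * y.v, x.u * y.v + x.v * y.u + x.v * y.v⟩⟩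
instance : Inv F4 := ⟨fun x => x * x⟩

instance : CommRing F4 where
  add_assoc := by decide
  zero_add := by decide
  add_zero := by decide
  add_comm := by decide
  neg_add_cancel := by decide
  mul_assoc := by decide
  one_mul := by decide
  mul_one := by decide
  zero_mul := by decide
  mul_zero := by decide
  left_distrib := by decide
  right_distrib := by decide
  mul_comm := by decide
  nsmul := nsmulRec
  zsmul := zsmulRec

theorem mul_inv_c (x : F4) (h : x ≠ 0) : x * x⁻¹ = 1 := by
  revert x; decide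

theorem add_self (x : F4) : x + x = 0 := by
  revert x; decide

theorem neg_eq (x : F4) : -x = x := rfl

theorem card_opt : Fintype.card (Option F4) = 5 := by decide

end F4

/-- reduction modulo `ϖ` -/
def red : R4 →+* F4 where
  toFun x := ⟨(x.a : ZMod 2) + x.c, (x.b : ZMod 2) + x.d⟩
  map_one' := by ext <;> simp [R4.one_a] <;> rfl
  map_zero' := by ext <;> simp <;> rfl
  map_add' x y := by
    ext
    · change ((x + y).a : ZMod 2) + (x + y).c = ((x.a : ZMod 2) + x.c) + ((y.a : ZMod 2) + y.c)
      rw [add_a, add_c]; push_cast; ring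
    · change ((x + y).b : ZMod 2) + (x + y).d = ((x.b : ZMod 2) + x.d) + ((y.b : ZMod 2) + y.d)
      rw [add_b, add_d]; push_cast; ring
  map_mul' x y := by
    have h2 : (2 : ZMod 2) = 0 := by decide
    ext
    · change ((x * y).a : ZMod 2) + (x * y).c = ((x.a : ZMod 2) + x.c) * ((y.a : ZMod 2) + y.c) +
        ((x.b : ZMod 2) + x.d) * ((y.b : ZMod 2) + y.d)
      rw [mul_a, mul_c]; push_cast
      linear_combination ((x.c : ZMod 2) * y.c + x.d * y.d) * h2
    · change ((x * y).b : ZMod 2) + (x * y).d = ((x.a : ZMod 2) + x.c) * ((y.b : ZMod 2) + y.d) +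
        ((x.b : ZMod 2) + x.d) * ((y.a : ZMod 2) + y.c) + ((x.b : ZMod 2) + x.d) * ((y.b : ZMod 2) + y.d)
      rw [mul_b, mul_d]; push_cast
      linear_combination ((x.c : ZMod 2) * y.d + x.d * y.c + x.d * y.d) * h2

theorem red_vpi : red vpi = 0 := by decide

theorem red_eq_zero (x : R4) : red x = 0 ↔ vpi ∣ x := by
  constructor
  · intro h
    have h1 : ((x.a + x.c : ℤ) : ZMod 2) = 0 := by
      have := congrArg F4.u h
      push_cast
      exact this
    have h2 : ((x.b + x.d : ℤ) : ZMod 2) = 0 := by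
      have := congrArg F4.v h
      push_cast
      exact this
    obtain ⟨m, hm⟩ := (ZMod.intCast_zmod_eq_zero_iff_dvd _ 2).1 h1
    obtain ⟨n, hn⟩ := (ZMod.intCast_zmod_eq_zero_iff_dvd _ 2).1 h2
    push_cast at hm hn
    refine ⟨⟨2 * x.a - m, 2 * x.b - n, m - x.a, n - x.b⟩, ?_⟩
    ext
    · simp only [mul_a, vpi]; linarith
    · simp only [mul_b, vpi]; linarith
    · simp only [mul_c, vpi]; linarith
    · simp only [mul_d, vpi]; linarith
  · rintro ⟨y, rfl⟩
    rw [map_mul, red_vpi, zero_mul]

/-- the slope of the row space of a matrix of rank one -/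
def slope (a b c d : F4) : Option F4 :=
  if a ≠ 0 then some (b * a⁻¹) else if c ≠ 0 then some (d * c⁻¹) else none

theorem slope_some {a b c d s : F4} (hd : a * d = b * c) (h : slope a b c d = some s) :
    b = s * a ∧ d = s * c := by
  unfold slope at h
  split_ifs at h with h1 h2
  · rw [Option.some.injEq] at h
    subst h
    have h3 := F4.mul_inv_c a h1
    constructor
    · linear_combination (-b) * h3
    · linear_combination (-d) * h3 + a⁻¹ * hd
  · rw [Option.some.injEq] at h
    subst h
    have h3 := F4.mul_inv_c c h2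
    rw [ne_eq, not_not] at h1
    subst h1
    rw [zero_mul] at hd
    have hb : b = 0 := by
      have : b * c * c⁻¹ = 0 := by rw [← hd, zero_mul]
      rw [mul_assoc, h3, mul_one] at this
      exact this
    constructor
    · rw [hb, mul_zero]
    · linear_combination (-d) * h3

theorem slope_none {a b c d : F4} (h : slope a b c d = none) : a = 0 ∧ c = 0 := by
  unfold slope at h
  split_ifs at h with h1 h2
  exact ⟨not_not.1 h1, not_not.1 h2⟩

/-- two matrices of determinant zero and the same slope -/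
theorem slope_eq {a b c d a' b' c' d' : F4} (hd : a * d = b * c) (hd' : a' * d' = b' * c')
    (h : slope a b c d = slope a' b' c' d') :
    a * d' + b * c' = 0 ∧ a * b' + b * a' = 0 ∧ c * d' + d * c' = 0 ∧ c * b' + d * a' = 0 := by
  cases hs : slope a b c d with
  | none =>
    obtain ⟨rfl, rfl⟩ := slope_none hs
    obtain ⟨rfl, rfl⟩ := slope_none (h ▸ hs)
    simp
  | some s =>
    obtain ⟨rfl, rfl⟩ := slope_some hd hs
    obtain ⟨rfl, rfl⟩ := slope_some hd' (h ▸ hs)
    refine ⟨?_, ?_, ?_, ?_⟩
    · linear_combination F4.add_self (s * a * c')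
    · linear_combination F4.add_self (s * a * a')
    · linear_combination F4.add_self (s * c * c')
    · linear_combination F4.add_self (s * c * a')

variable {A B C α : R4}

/-- the invariant of an element of norm `ϖ` -/
def inv (p : Qt A B C α) : Option F4 :=
  slope (red (p.t + p.y)) (red p.x) (red (α * p.x + p.z)) (red p.t)

theorem red_C (h : α * (4 * A * C - B ^ 2) - C = 1) (hB : vpi ∣ B) : red C = 1 := by
  have h4 : red (4 : R4) = 0 := by decide
  have hb := (red_eq_zero B).2 hB
  have := congrArg red h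
  simp only [map_sub, map_mul, map_pow, map_one, h4, hb] at this
  have h5 : red C = -1 := by linear_combination -this
  rw [h5]; rfl

theorem exists_unit (h : α * (4 * A * C - B ^ 2) - C = 1) (hA : vpi ∣ A) (hB : vpi ∣ B)
    (p q : Qt A B C α) (hp : Qt.nrd p = vpi) (hq : Qt.nrd q = vpi) (hpq : inv p = inv q) :
    ∃ u : Qt A B C α, Qt.nrd u = 1 ∧ p = u * q := by
  have ha := (red_eq_zero A).2 hA
  have hb := (red_eq_zero B).2 hB
  have hc := red_C h hB
  have two : ∀ x : F4, x + x = 0 := F4.add_self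
  have det : ∀ r : Qt A B C α, Qt.nrd r = vpi →
      red (r.t + r.y) * red r.t = red r.x * red (α * r.x + r.z) := by
    intro r hr
    have h1 := congrArg red hr
    simp only [Qt.nrd, map_add, map_sub, map_mul, map_pow, red_vpi, ha, hb, hc] at h1
    simp only [map_add, map_mul]
    linear_combination h1 - two (red α * red r.x ^ 2)
  obtain ⟨e1, e2, e3, e4⟩ := slope_eq (det p hp) (det q hq) hpq
  have key : ∀ x : R4, red x = 0 → ∃ y, x = vpi * y := fun x hx => (red_eq_zero x).1 hx
  simp only [map_add, map_mul] at e1 e2 e3 e4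
  have ft : red (p * Qt.conj q).t = 0 := by
    simp only [Qt.mul_t, Qt.conj, map_add, map_sub, map_mul, map_neg, ha, hb, hc]
    linear_combination e4 - two (red p.z * red q.x)
  have fx : red (p * Qt.conj q).x = 0 := by
    simp only [Qt.mul_x, Qt.conj, map_add, map_sub, map_mul, map_neg, ha, hb]
    linear_combination e2 - two ((red p.t + red p.y) * red q.x)
  have fy : red (p * Qt.conj q).y = 0 := by
    simp only [Qt.mul_y, Qt.conj, map_add, map_sub, map_mul, map_neg, hb, hc]
    linear_combination e1 + e4 - two (red p.t * red q.t + red α * red p.x * red q.x +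
      red p.x * red q.z + red p.t * red q.y)
  have fz : red (p * Qt.conj q).z = 0 := by
    simp only [Qt.mul_z, Qt.conj, map_add, map_sub, map_mul, map_neg, hb]
    linear_combination e3 + red α * e2 - two (red α * red p.x * red q.t + red α * red p.t * red q.x +
      red p.t * red q.z + red α * red p.y * red q.x)
  obtain ⟨yt, ht⟩ := key _ ft
  obtain ⟨yx, hx⟩ := key _ fx
  obtain ⟨yy, hy⟩ := key _ fy
  obtain ⟨yz, hz⟩ := key _ fz
  have hr : p * Qt.conj q = Qt.cst vpi * (⟨yt, yx, yy, yz⟩ : Qt A B C α) := by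
    rw [Qt.cst_mul]
    ext1
    · exact ht
    · exact hx
    · exact hy
    · exact hz
  have hv : vpi ≠ 0 := by decide
  refine ⟨⟨yt, yx, yy, yz⟩, ?_, ?_⟩
  · have h1 := congrArg Qt.nrd hr
    have h2 : Qt.nrd (Qt.conj q) = Qt.nrd q := by
      simp only [Qt.nrd, Qt.conj]; ring
    rw [Qt.nrd_mul, Qt.nrd_mul, Qt.nrd_cst, h2, hp, hq] at h1
    have h3 : vpi * vpi * (Qt.nrd (⟨yt, yx, yy, yz⟩ : Qt A B C α) - 1) = 0 := by
      linear_combination -h1
    rcases mul_eq_zero.1 h3 with h4 | h4
    · exact absurd h4 (mul_ne_zero hv hv)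
    · exact sub_eq_zero.1 h4
  · have h1 : p * (Qt.conj q * q) = Qt.cst vpi * ((⟨yt, yx, yy, yz⟩ : Qt A B C α) * q) := by
      rw [← mul_assoc, hr, mul_assoc]
    rw [Qt.conj_mul, hq, ← Qt.cst_comm, Qt.cst_mul, Qt.cst_mul] at h1
    have h2 := congrArg Qt.t h1
    have h3 := congrArg Qt.x h1
    have h4 := congrArg Qt.y h1
    have h5 := congrArg Qt.z h1
    ext1
    · exact mul_left_cancel₀ hv h2
    · exact mul_left_cancel₀ hv h3
    · exact mul_left_cancel₀ hv h4
    · exact mul_left_cancel₀ hv h5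

/-- left multiplication by units -/
def rel (A B C α : R4) : Setoid {p : Qt A B C α // Qt.nrd p = vpi} where
  r p q := ∃ u : Qt A B C α, Qt.nrd u = 1 ∧ (p : Qt A B C α) = u * q
  iseqv := by
    have hone : (Qt.cst 1 : Qt A B C α) = 1 := rfl
    have hn1 : Qt.nrd (1 : Qt A B C α) = 1 := by
      rw [← hone, Qt.nrd_cst, one_pow]
    refine ⟨fun p => ⟨1, hn1, (one_mul _).symm⟩, ?_, ?_⟩
    · rintro p q ⟨u, hu, h⟩
      refine ⟨Qt.conj u, ?_, ?_⟩
      · have h2 : Qt.nrd (Qt.conj u) = Qt.nrd u := by
          simp only [Qt.nrd, Qt.conj]; ring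
        rw [h2, hu]
      · rw [h, ← mul_assoc, Qt.conj_mul, hu, hone, one_mul]
    · rintro p q r ⟨u, hu, h⟩ ⟨v, hv, h'⟩
      exact ⟨u * v, by rw [Qt.nrd_mul, hu, hv, one_mul], by rw [h, h', mul_assoc]⟩

/-- a representative of the class -/
noncomputable def rep {A B C α : R4} (c : Quotient (rel A B C α)) : Qt A B C α := (Quotient.out c).1

theorem rep_nrd {A B C α : R4} (c : Quotient (rel A B C α)) : Qt.nrd (rep c) = vpi := (Quotient.out c).2

/-- the element `u * rep c` -/
noncomputable def prodMap (A B C α : R4) :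
    Quotient (rel A B C α) × {p : Qt A B C α // Qt.nrd p = 1} → {p : Qt A B C α // Qt.nrd p = vpi} :=
  fun c => ⟨c.2.1 * rep c.1, by rw [Qt.nrd_mul, c.2.2, rep_nrd, one_mul]⟩

theorem mk_prodMap {A B C α : R4} (c : Quotient (rel A B C α)) (u : {p : Qt A B C α // Qt.nrd p = 1}) :
    Quotient.mk (rel A B C α) (prodMap A B C α (c, u)) = c := by
  conv_rhs => rw [← Quotient.out_eq c]
  exact Quotient.sound (s := rel A B C α) ⟨u.1, u.2, rfl⟩

theorem prodMap_bij (A B C α : R4) : Function.Bijective (prodMap A B C α) := by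
  have hv : vpi ≠ 0 := by decide
  constructor
  · rintro ⟨c, u⟩ ⟨c', u'⟩ he
    have hcc : c = c' := by rw [← mk_prodMap c u, ← mk_prodMap c' u', he]
    subst hcc
    have h1 : u.1 * rep c = u'.1 * rep c := congrArg Subtype.val he
    have h2 := congrArg (fun r => r * Qt.conj (rep c)) h1
    simp only [mul_assoc, Qt.mul_conj, rep_nrd] at h2
    rw [← Qt.cst_comm, ← Qt.cst_comm, Qt.cst_mul, Qt.cst_mul] at h2
    have h3 := mul_left_cancel₀ hv (congrArg Qt.t h2)
    have h4 := mul_left_cancel₀ hv (congrArg Qt.x h2)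
    have h5 := mul_left_cancel₀ hv (congrArg Qt.y h2)
    have h6 := mul_left_cancel₀ hv (congrArg Qt.z h2)
    have : u = u' := Subtype.ext (Qt.ext h3 h4 h5 h6)
    rw [this]
  · intro p
    have hr : rel A B C α p (Quotient.mk (rel A B C α) p).out :=
      (rel A B C α).iseqv.symm (Quotient.mk_out (s := rel A B C α) p)
    obtain ⟨u, hu, he⟩ := hr
    exact ⟨(Quotient.mk (rel A B C α) p, ⟨u, hu⟩), Subtype.ext he.symm⟩

/-- **Part 3 of CNT.** The number of the elements of norm `ϖ` is a multiple `n` of the number of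
the elements of norm one, `n ≤ 5`. -/
theorem card_vpi (A B C α : R4) (h : α * (4 * A * C - B ^ 2) - C = 1) (hA : vpi ∣ A)
    (hB : vpi ∣ B) : ∃ n : ℕ, n ≤ 5 ∧ Nat.card {p : Qt A B C α // Qt.nrd p = vpi} =
      n * Nat.card {p : Qt A B C α // Qt.nrd p = 1} := by
  refine ⟨Nat.card (Quotient (rel A B C α)), ?_, ?_⟩
  · have hinj : Function.Injective (fun c : Quotient (rel A B C α) => inv (rep c)) := by
      intro c c' hc
      obtain ⟨u, hu, he⟩ := exists_unit h hA hB (rep c) (rep c') (rep_nrd c) (rep_nrd c') hc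
      rw [← Quotient.out_eq c, ← Quotient.out_eq c']
      exact Quotient.sound (s := rel A B C α) ⟨u, hu, he⟩
    have h1 := Nat.card_le_card_of_injective _ hinj
    rwa [Nat.card_eq_fintype_card (α := Option F4), F4.card_opt] at h1
  · rw [← Nat.card_prod, Nat.card_congr (Equiv.ofBijective _ (prodMap_bij A B C α))]

end Pool.Agent.U431.UF
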