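import Pool.Agent.U14.UF.Jobs

set_option autoImplicit false

/-!
# Project UF, package GRP: a quaternion group in a finite group
-/

namespace Pool.Agent.U431.UF

open Subgroup

section

variable {G : Type} [Group G] [Finite G] {z : G}

open Classical in
/-- The squares in a commutative group in which `g * g = 1` has at most two solutions. -/
lemma card_le_pow (P : Subgroup G) (hc : ∀ u ∈ P, ∀ v ∈ P, u * v = v * u)
    (h1 : ∀ g : G, g * g = 1 → g = 1 ∨ g = z) (k : ℕ) :
    ((Set.toFinite (P : Set G)).toFinset).card ≤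
      2 ^ k * (((Set.toFinite (P : Set G)).toFinset).image (fun g => g ^ (2 ^ k))).card := by
  induction k with
  | zero => simp
  | succ k ih =>
    set S := ((Set.toFinite (P : Set G)).toFinset).image (fun g => g ^ (2 ^ k)) with hS
    have e : ((Set.toFinite (P : Set G)).toFinset).image (fun g => g ^ (2 ^ (k + 1))) =
        S.image (fun x => x ^ 2) := by
      rw [hS, Finset.image_image]
      refine Finset.image_congr fun g _ => ?_
      simp only [Function.comp]
      rw [← pow_mul, pow_succ]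
    have hSP : ∀ x ∈ S, x ∈ P := by
      intro x hx
      rw [hS, Finset.mem_image] at hx
      obtain ⟨g, hg, rfl⟩ := hx
      rw [Set.Finite.mem_toFinset] at hg
      exact P.pow_mem hg _
    have h2 : S.card ≤ 2 * (S.image (fun x => x ^ 2)).card := by
      refine Finset.card_le_mul_card_image S 2 fun a ha => ?_
      rw [Finset.mem_image] at ha
      obtain ⟨x0, hx0, rfl⟩ := ha
      refine (Finset.card_le_card (t := {x0, z * x0}) ?_).trans Finset.card_le_two
      intro x hx
      rw [Finset.mem_filter] at hx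
      obtain ⟨hx, hxx⟩ := hx
      have hcx := hc x (hSP x hx) x0⁻¹ (P.inv_mem (hSP x0 hx0))
      have h3 : (x * x0⁻¹) * (x * x0⁻¹) = 1 := by
        have : (x * x0⁻¹) * (x * x0⁻¹) = x ^ 2 * (x0 ^ 2)⁻¹ := by
          rw [pow_two, pow_two, mul_inv_rev]
          calc x * x0⁻¹ * (x * x0⁻¹) = x * (x0⁻¹ * x) * x0⁻¹ := by simp only [mul_assoc]
            _ = x * (x * x0⁻¹) * x0⁻¹ := by rw [hcx]
            _ = x * x * (x0⁻¹ * x0⁻¹) := by simp only [mul_assoc]
        rw [this, hxx, mul_inv_cancel]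
      rw [Finset.mem_insert, Finset.mem_singleton]
      rcases h1 _ h3 with h | h
      · left; exact mul_inv_eq_one.1 h
      · right; exact mul_inv_eq_iff_eq_mul.1 h
    rw [e]
    calc _ ≤ 2 ^ k * S.card := ih
      _ ≤ 2 ^ k * (2 * (S.image (fun x => x ^ 2)).card) := Nat.mul_le_mul_left _ h2
      _ = _ := by ring

lemma exists_pow_ne (P : Subgroup G) (hc : ∀ u ∈ P, ∀ v ∈ P, u * v = v * u)
    (h1 : ∀ g : G, g * g = 1 → g = 1 ∨ g = z) (k : ℕ) (hk : 2 ^ k < Nat.card P) :
    ∃ g ∈ P, g ^ (2 ^ k) ≠ 1 := by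
  classical
  by_contra hcon
  push Not at hcon
  have h := card_le_pow P hc h1 k
  have h2 : (((Set.toFinite (P : Set G)).toFinset).image (fun g => g ^ (2 ^ k))).card ≤ 1 := by
    refine (Finset.card_le_card (t := {1}) ?_).trans (Finset.card_singleton _).le
    intro x hx
    rw [Finset.mem_image] at hx
    obtain ⟨g, hg, rfl⟩ := hx
    rw [Set.Finite.mem_toFinset] at hg
    rw [Finset.mem_singleton]
    exact hcon g hg
  have h3 : ((Set.toFinite (P : Set G)).toFinset).card = Nat.card P := by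
    rw [← Set.ncard_eq_toFinset_card, ← Nat.card_coe_set_eq]
    rfl
  rw [h3] at h
  have := Nat.mul_le_mul_left (2 ^ k) h2
  omega

/-- no subgroup of order 15 -/
lemma no_fifteen (hzz : z * z = 1) (h2 : ∀ g : G, g ^ 6 = 1 ∨ g ^ 8 = 1 ∨ g ^ 10 = 1)
    (h3 : ∀ x y : G, x ≠ 1 → x ≠ z → y * x * y⁻¹ ∈ Subgroup.zpowers x →
      y * x = x * y ∨ (y * x = x⁻¹ * y ∧ y * y = z))
    (N : Subgroup G) (hN : Nat.card N = 15) : False := by
  have : Fact (Nat.Prime 5) := ⟨by norm_num⟩
  have : Fact (Nat.Prime 3) := ⟨by norm_num⟩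
  obtain ⟨x, hx⟩ := exists_prime_orderOf_dvd_card' (G := N) 5 (by rw [hN]; norm_num)
  obtain ⟨y, hy⟩ := exists_prime_orderOf_dvd_card' (G := N) 3 (by rw [hN]; norm_num)
  have hX : (Subgroup.zpowers x).index = (Nat.card N).minFac := by
    have h := (Subgroup.zpowers x).card_mul_index
    rw [Nat.card_zpowers, hx, hN] at h
    rw [hN]
    have : (Subgroup.zpowers x).index = 3 := by omega
    rw [this]
    norm_num
  have hn := Subgroup.normal_of_index_eq_minFac_card hX
  have hxy := hn.conj_mem x (Subgroup.mem_zpowers x) y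
  have hxo : orderOf (x : G) = 5 := by rw [Subgroup.orderOf_coe, hx]
  have hyo : orderOf (y : G) = 3 := by rw [Subgroup.orderOf_coe, hy]
  have hx1 : (x : G) ≠ 1 := by
    intro h
    rw [h, orderOf_one] at hxo
    omega
  have hxz : (x : G) ≠ z := by
    intro h
    have h5 : orderOf (x : G) ∣ 2 := orderOf_dvd_of_pow_eq_one (by rw [h, pow_two, hzz])
    rw [hxo] at h5
    omega
  have hmem : (y : G) * x * (y : G)⁻¹ ∈ Subgroup.zpowers (x : G) := by
    obtain ⟨k, hk⟩ := Subgroup.mem_zpowers_iff.1 hxy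
    refine Subgroup.mem_zpowers_iff.2 ⟨k, ?_⟩
    have := congrArg (fun t : N => (t : G)) hk
    simpa using this
  rcases h3 x y hx1 hxz hmem with h | ⟨-, h⟩
  · have ho : orderOf ((y : G) * x) = 15 := by
      rw [(show Commute (y : G) x from h).orderOf_mul_eq_mul_orderOf_of_coprime
        (by rw [hxo, hyo]; norm_num), hxo, hyo]
    rcases h2 ((y : G) * x) with h6 | h6 | h6
    · have := orderOf_dvd_of_pow_eq_one h6
      rw [ho] at this; omega
    · have := orderOf_dvd_of_pow_eq_one h6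
      rw [ho] at this; omega
    · have := orderOf_dvd_of_pow_eq_one h6
      rw [ho] at this; omega
  · have h4 : (y : G) ^ 4 = 1 := by
      rw [show (4 : ℕ) = 2 * 2 from rfl, pow_mul, pow_two (y : G), h, pow_two, hzz]
    have := orderOf_dvd_of_pow_eq_one h4
    rw [hyo] at this
    omega

end

theorem t_GRP : Pool.Agent.U14.UF.S_GRP := by
  intro G _ _ z hz1 hzz hzc h1 h2 h3 h4 hcard
  by_contra hcon
  push Not at hcon
  simp only [Set.mem_insert_iff, Set.mem_singleton_iff] at hcard
  have : Fact (Nat.Prime 2) := ⟨Nat.prime_two⟩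
  let P : Sylow 2 G := default
  obtain ⟨n, hn⟩ := (IsPGroup.iff_card (p := 2)).1 P.isPGroup'
  have hn' : Nat.card (P : Subgroup G) = 2 ^ n := hn
  have hidx : ¬ 2 ∣ (P : Subgroup G).index := P.not_dvd_index
  have hmul : Nat.card (P : Subgroup G) * (P : Subgroup G).index = Nat.card G :=
    (P : Subgroup G).card_mul_index
  rw [hn'] at hmul
  -- the possible pairs
  have hn5 : n < 7 := by
    have h5 : 2 ^ n ≤ 120 := by
      have h6 : 2 ^ n ≤ Nat.card G := Nat.le_of_dvd Nat.card_pos ⟨_, hmul.symm⟩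
      rcases hcard with h | h | h | h | h <;> omega
    by_contra hge
    have := Nat.pow_le_pow_right (n := 2) (by norm_num) (not_lt.1 hge)
    omega
  have hpairs : (Nat.card G = 40 ∧ n = 3) ∨ (Nat.card G = 48 ∧ n = 4) ∨ (Nat.card G = 60 ∧ n = 2) ∨
      (Nat.card G = 80 ∧ n = 4) ∨ (Nat.card G = 120 ∧ n = 3) := by
    have hodd : (P : Subgroup G).index % 2 = 1 := by omega
    generalize (P : Subgroup G).index = q at hmul hodd
    rcases hcard with h | h | h | h | h <;> rw [h] at hmul ⊢ <;> interval_cases n <;> omega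
  have hn2 : 2 ≤ n := by omega
  have hn4 : n ≤ 4 := by omega
  -- `z ∈ P`
  have hdvd : 2 ∣ Nat.card (P : Subgroup G) := by
    rw [hn']; exact dvd_pow_self 2 (by omega)
  obtain ⟨w, hw⟩ := exists_prime_orderOf_dvd_card' (G := (P : Subgroup G)) 2 hdvd
  have hzP : z ∈ (P : Subgroup G) := by
    have hwG : orderOf (w : G) = 2 := by rw [Subgroup.orderOf_coe, hw]
    have h5 : (w : G) * w = 1 := by
      have := pow_orderOf_eq_one (w : G)
      rwa [hwG, pow_two] at this
    rcases h1 w h5 with h | h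
    · rw [h, orderOf_one] at hwG; omega
    · rw [← h]; exact w.2
  -- exponent 8
  have h8 : ∀ g ∈ (P : Subgroup G), g ^ 8 = 1 := by
    intro g hg
    have ho : orderOf g ∣ 16 := by
      have h5 : orderOf (⟨g, hg⟩ : (P : Subgroup G)) ∣ Nat.card (P : Subgroup G) :=
        orderOf_dvd_natCard _
      rw [hn', Subgroup.orderOf_mk] at h5
      exact h5.trans (pow_dvd_pow 2 hn4)
    rcases h2 g with h | h | h
    · exact orderOf_dvd_iff_pow_eq_one.1
        ((Nat.dvd_gcd ho (orderOf_dvd_of_pow_eq_one h)).trans (by norm_num))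
    · exact h
    · exact orderOf_dvd_iff_pow_eq_one.1
        ((Nat.dvd_gcd ho (orderOf_dvd_of_pow_eq_one h)).trans (by norm_num))
  -- the element `i`
  let z' : (P : Subgroup G) := ⟨z, hzP⟩
  let Z' : Subgroup (P : Subgroup G) := Subgroup.zpowers z'
  have hZ : ∀ t ∈ Z', (t : G) = 1 ∨ (t : G) = z := by
    intro t ht
    obtain ⟨k, rfl⟩ := Subgroup.mem_zpowers_iff.1 ht
    apply h1
    have : ((z' ^ k : (P : Subgroup G)) : G) = z ^ k := rfl
    rw [this, ← zpow_add, ← two_mul, zpow_mul, zpow_two, hzz, one_zpow]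
  have hZn : Z'.Normal := by
    refine ⟨fun t ht y => ?_⟩
    have : y * t * y⁻¹ = t := by
      apply Subtype.ext
      change (y : G) * t * (y : G)⁻¹ = t
      rcases hZ t ht with h | h
      · rw [h]; simp
      · rw [h, hzc, mul_inv_cancel_right]
    rw [this]; exact ht
  have hzo : orderOf z' = 2 := by
    rw [orderOf_eq_prime_iff]
    refine ⟨?_, ?_⟩
    · apply Subtype.ext
      change z ^ 2 = 1
      rw [pow_two, hzz]
    · intro h
      exact hz1 (congrArg Subtype.val h)
  have hcQ := Subgroup.card_eq_card_quotient_mul_card_subgroup Z'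
  have hcZ : Nat.card Z' = 2 := by rw [Nat.card_zpowers, hzo]
  rw [hcZ, hn'] at hcQ
  have hQ1 : 1 < Nat.card ((P : Subgroup G) ⧸ Z') := by
    have : 2 ^ 2 ≤ 2 ^ n := Nat.pow_le_pow_right (by norm_num) hn2
    omega
  have hQn : Nontrivial ((P : Subgroup G) ⧸ Z') := Finite.one_lt_card_iff_nontrivial.1 hQ1
  have hQp : IsPGroup 2 ((P : Subgroup G) ⧸ Z') := P.isPGroup'.to_quotient Z'
  have hcn := hQp.center_nontrivial
  obtain ⟨m, hm⟩ := (IsPGroup.iff_card (p := 2)).1
    (hQp.to_subgroup (Subgroup.center ((P : Subgroup G) ⧸ Z')))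
  have hm2 : 2 ∣ Nat.card (Subgroup.center ((P : Subgroup G) ⧸ Z')) := by
    rw [hm]
    have h5 := Finite.one_lt_card_iff_nontrivial.2 hcn
    rw [hm] at h5
    refine dvd_pow_self 2 ?_
    rintro rfl
    simp at h5
  obtain ⟨c, hc⟩ := exists_prime_orderOf_dvd_card' 2 hm2
  obtain ⟨i, hi⟩ := QuotientGroup.mk_surjective (c : (P : Subgroup G) ⧸ Z')
  have hq1 : (c : (P : Subgroup G) ⧸ Z') ≠ 1 := by
    intro h
    have h5 : c = 1 := Subtype.ext h
    rw [h5, orderOf_one] at hc
    omega
  have hq2 : (c : (P : Subgroup G) ⧸ Z') * c = 1 := by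
    have h5 := pow_orderOf_eq_one c
    rw [hc, pow_two] at h5
    exact congrArg Subtype.val h5
  have hi1 : i ∉ Z' := fun h => hq1 (by rw [← hi]; exact (QuotientGroup.eq_one_iff i).2 h)
  have hi2 : i * i ∈ Z' := by
    rw [← QuotientGroup.eq_one_iff, QuotientGroup.mk_mul, hi, hq2]
  have hiz1 : (i : G) ≠ 1 := by
    intro h
    exact hi1 ((Subtype.ext h : i = 1) ▸ Z'.one_mem)
  have hiz2 : (i : G) ≠ z := by
    intro h
    exact hi1 ((Subtype.ext h : i = z') ▸ Subgroup.mem_zpowers z')
  have hii : (i : G) * i = z := by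
    rcases hZ _ hi2 with h | h
    · exfalso
      rcases h1 (i : G) h with h5 | h5
      · exact hiz1 h5
      · exact hiz2 h5
    · exact h
  have hinv : (i : G)⁻¹ = z * i := by
    rw [eq_comm, ← mul_eq_one_iff_eq_inv, mul_assoc, hii, hzz]
  have hcomm : ∀ y ∈ (P : Subgroup G), y * i = i * y := by
    intro y hy
    have h5 : (⟨y, hy⟩ : (P : Subgroup G)) * i * (⟨y, hy⟩ : (P : Subgroup G))⁻¹ * i⁻¹ ∈ Z' := by
      rw [← QuotientGroup.eq_one_iff]
      rw [QuotientGroup.mk_mul, QuotientGroup.mk_mul, QuotientGroup.mk_mul, QuotientGroup.mk_inv,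
        QuotientGroup.mk_inv, hi]
      rw [Subgroup.mem_center_iff.1 c.2, mul_inv_cancel_right, mul_inv_cancel]
    have h6 : y * i * y⁻¹ * (i : G)⁻¹ = 1 ∨ y * i * y⁻¹ * (i : G)⁻¹ = z := hZ _ h5
    have h7 : y * i * y⁻¹ ∈ Subgroup.zpowers (i : G) := by
      rcases h6 with h | h
      · rw [mul_inv_eq_one.1 h]
        exact Subgroup.mem_zpowers _
      · rw [mul_inv_eq_iff_eq_mul.1 h, ← hinv]
        exact Subgroup.inv_mem _ (Subgroup.mem_zpowers _)
    rcases h3 i y hiz1 hiz2 h7 with h | ⟨h, h'⟩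
    · exact h
    · exact absurd (by rw [h, hinv, mul_assoc]) (hcon i y hii h')
  have hPc : ∀ u ∈ (P : Subgroup G), ∀ v ∈ (P : Subgroup G), u * v = v * u := fun u hu v hv =>
    h4 i u v hiz1 hiz2 (hcomm u hu) (hcomm v hv)
  -- `n ≤ 3`
  have hn3 : n ≤ 3 := by
    by_contra hlt
    have h5 : n = 4 := by omega
    obtain ⟨g, hg, hg'⟩ := exists_pow_ne (P : Subgroup G) hPc h1 3 (by rw [hn', h5]; norm_num)
    exact hg' (h8 g hg)
  -- cyclic
  obtain ⟨g, hg, hg'⟩ := exists_pow_ne (P : Subgroup G) hPc h1 (n - 1)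
    (by rw [hn']; exact Nat.pow_lt_pow_right (by norm_num) (by omega))
  have hgo : orderOf g = 2 ^ n := by
    have h5 : orderOf g = 2 ^ (n - 1 + 1) := by
      refine orderOf_eq_prime_pow hg' ?_
      rw [show n - 1 + 1 = n from by omega]
      have h6 : orderOf (⟨g, hg⟩ : (P : Subgroup G)) ∣ Nat.card (P : Subgroup G) :=
        orderOf_dvd_natCard _
      rw [hn', Subgroup.orderOf_mk] at h6
      exact orderOf_dvd_iff_pow_eq_one.1 h6
    rw [h5, show n - 1 + 1 = n from by omega]
  have hcyc : IsCyclic (P : Subgroup G) := by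
    refine isCyclic_of_orderOf_eq_card (⟨g, hg⟩ : (P : Subgroup G)) ?_
    rw [Subgroup.orderOf_mk, hgo, hn']
  have hmin : (Nat.card G).minFac = 2 := by
    rw [Nat.minFac_eq_two_iff]
    omega
  have hcompl := hcyc.isComplement' (P := P) hmin
  set N := (MonoidHom.transferSylow P (hcyc.normalizer_le_centralizer hmin)).ker with hNdef
  have hNn : N.Normal := by rw [hNdef]; infer_instance
  have hNc : Nat.card N * Nat.card (P : Subgroup G) = Nat.card G := hcompl.card_mul_card
  rw [hn'] at hNc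
  rcases hpairs with ⟨hG, rfl⟩ | ⟨-, rfl⟩ | ⟨hG, rfl⟩ | ⟨-, rfl⟩ | ⟨hG, rfl⟩
  · -- order 40
    rw [hG] at hNc
    have hN5 : Nat.card N = 5 := by omega
    have : Fact (Nat.Prime 5) := ⟨by norm_num⟩
    obtain ⟨x, hx⟩ := exists_prime_orderOf_dvd_card' (G := N) 5 (by rw [hN5])
    have hxo : orderOf (x : G) = 5 := by rw [Subgroup.orderOf_coe, hx]
    have hx1 : (x : G) ≠ 1 := by
      intro h
      rw [h, orderOf_one] at hxo
      omega
    have hxz : (x : G) ≠ z := by
      intro h
      have h5 : orderOf (x : G) ∣ 2 := orderOf_dvd_of_pow_eq_one (by rw [h, pow_two, hzz])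
      rw [hxo] at h5
      omega
    have hXN : Subgroup.zpowers (x : G) = N := by
      apply Subgroup.eq_of_le_of_card_ge
      · rw [Subgroup.zpowers_le]
        exact x.2
      · rw [Nat.card_zpowers, hxo, hN5]
    have hmem : g * x * g⁻¹ ∈ Subgroup.zpowers (x : G) := by
      rw [hXN]
      exact hNn.conj_mem x x.2 g
    rcases h3 x g hx1 hxz hmem with h | ⟨-, h⟩
    · have ho : orderOf (g * x) = 40 := by
        rw [(show Commute g (x : G) from h).orderOf_mul_eq_mul_orderOf_of_coprime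
          (by rw [hxo, hgo]; norm_num), hxo, hgo]
        norm_num
      rcases h2 (g * x) with h6 | h6 | h6
      · have := orderOf_dvd_of_pow_eq_one h6
        rw [ho] at this; omega
      · have := orderOf_dvd_of_pow_eq_one h6
        rw [ho] at this; omega
      · have := orderOf_dvd_of_pow_eq_one h6
        rw [ho] at this; omega
    · have h5 : g ^ 4 = 1 := by
        rw [show (4 : ℕ) = 2 * 2 from rfl, pow_mul, pow_two g, h, pow_two, hzz]
      have := orderOf_dvd_of_pow_eq_one h5
      rw [hgo] at this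
      omega
  · omega
  · exact no_fifteen hzz h2 h3 N (by rw [hG] at hNc; omega)
  · omega
  · exact no_fifteen hzz h2 h3 N (by rw [hG] at hNc; omega)

end Pool.Agent.U431.UF
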